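import Mathlib

/-!
Integer points on the plane curves `a(x) y + b(x) = 0`: the optimal exponent of the height.
-/

set_option autoImplicit false

namespace Pool.Agent.Results.MP_2d259b_nt.LinearInOneVariable

open Polynomial Finset

/-- the set of the integer zeros of the polynomial `a(x) y + b(x)` -/
def Z (a b : ℤ[X]) : Set (ℤ × ℤ) := {p | a.eval p.1 * p.2 + b.eval p.1 = 0}

/-- all coefficients of `a` are at most `M` in absolute value -/
def CoeffLe (a : ℤ[X]) (M : ℤ) : Prop := ∀ i : ℕ, |a.coeff i| ≤ M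

/-- pseudo-division -/
theorem pseudo (a : ℤ[X]) (e : ℕ) (H : ℤ) (hH : 0 ≤ H) (ha : CoeffLe a H)
    (hae : ∀ m, e < m → a.coeff m = 0) :
    ∀ (n : ℕ) (b : ℤ[X]) (M : ℤ), 0 ≤ M → CoeffLe b M → (∀ m, e + n ≤ m → b.coeff m = 0) →
      ∃ q r : ℤ[X], C (a.coeff e ^ n) * b = q * a + r ∧ (∀ m, e ≤ m → r.coeff m = 0) ∧
        CoeffLe r ((2 * H) ^ n * M) := by
  intro n
  induction n with
  | zero =>
    intro b M hM hb hbe
    refine ⟨0, b, by simp, fun m hm => hbe m (by omega), ?_⟩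
    simpa using hb
  | succ n ih =>
    intro b M hM hb hbe
    have hb' : CoeffLe (C (a.coeff e) * b - C (b.coeff (e + n)) * (X ^ n * a)) (2 * H * M) := by
      intro i
      rw [coeff_sub, coeff_C_mul, coeff_C_mul]
      have e1 : |a.coeff e * b.coeff i| ≤ H * M := by
        rw [abs_mul]
        exact mul_le_mul (ha e) (hb i) (abs_nonneg _) hH
      have e2 : |b.coeff (e + n) * (X ^ n * a).coeff i| ≤ M * H := by
        rw [abs_mul]
        have e3 : |(X ^ n * a).coeff i| ≤ H := by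
          rw [coeff_X_pow_mul']
          split_ifs
          · exact ha (i - n)
          · rw [abs_zero]
            exact hH
        exact mul_le_mul (hb (e + n)) e3 (abs_nonneg _) hM
      have e4 := abs_sub (a.coeff e * b.coeff i) (b.coeff (e + n) * (X ^ n * a).coeff i)
      have e5 : 2 * H * M = H * M + M * H := by ring
      rw [e5]
      exact e4.trans (add_le_add e1 e2)
    have hbe' : ∀ m, e + n ≤ m →
        (C (a.coeff e) * b - C (b.coeff (e + n)) * (X ^ n * a)).coeff m = 0 := by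
      intro m hm
      rw [coeff_sub, coeff_C_mul, coeff_C_mul, coeff_X_pow_mul', if_pos (by omega)]
      rcases Nat.eq_or_lt_of_le hm with h | h
      · rw [← h, Nat.add_sub_cancel]
        ring
      · rw [hbe m (by omega), hae (m - n) (by omega)]
        ring
    obtain ⟨q, r, h1, h2, h3⟩ := ih (C (a.coeff e) * b - C (b.coeff (e + n)) * (X ^ n * a))
      (2 * H * M) (by positivity) hb' hbe'
    refine ⟨q + C (a.coeff e ^ n * b.coeff (e + n)) * X ^ n, r, ?_, h2, ?_⟩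
    · have h4 : C (a.coeff e ^ (n + 1)) * b =
          C (a.coeff e ^ n) * (C (a.coeff e) * b - C (b.coeff (e + n)) * (X ^ n * a)) +
            C (a.coeff e ^ n * b.coeff (e + n)) * X ^ n * a := by
        simp only [C_mul, C_pow]
        ring
      rw [h4, h1]
      ring
    · intro i
      refine (h3 i).trans (le_of_eq ?_)
      ring

/-- upper bound for the value of a polynomial -/
theorem eval_upper (p : ℤ[X]) (n : ℕ) (M x : ℤ) (hp : CoeffLe p M)
    (hpn : ∀ m, n ≤ m → p.coeff m = 0) :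
    |p.eval x| ≤ M * ∑ i ∈ range n, |x| ^ i := by
  have h1 : p.natDegree < n ∨ p = 0 := by
    by_cases h : p = 0
    · exact Or.inr h
    · left
      by_contra hcon
      push Not at hcon
      exact h (leadingCoeff_eq_zero.1 (hpn _ hcon))
  rcases h1 with h1 | h1
  · rw [eval_eq_sum_range' h1, mul_sum]
    refine (abs_sum_le_sum_abs _ _).trans (sum_le_sum fun i _ => ?_)
    rw [abs_mul, abs_pow]
    exact mul_le_mul_of_nonneg_right (hp i) (by positivity)
  · subst h1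
    rw [eval_zero, abs_zero]
    have : 0 ≤ M := (abs_nonneg _).trans (hp 0)
    positivity

theorem geom (X : ℤ) (n : ℕ) : (X - 1) * ∑ i ∈ range n, X ^ i = X ^ n - 1 := by
  rw [mul_comm]
  exact geom_sum_mul X n

/-- lower bound for the value of a polynomial -/
theorem eval_lower (p : ℤ[X]) (e : ℕ) (M x : ℤ) (hp : CoeffLe p M) (hpe : p.coeff e ≠ 0)
    (hpn : ∀ m, e < m → p.coeff m = 0) (hx : 2 * M + 1 ≤ |x|) : |x| ^ e ≤ 2 * |p.eval x| := by
  set q : ℤ[X] := p - C (p.coeff e) * X ^ e with hq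
  have hM : 0 ≤ M := (abs_nonneg _).trans (hp 0)
  have hqM : CoeffLe q M := by
    intro i
    rw [hq, coeff_sub, coeff_C_mul_X_pow]
    split_ifs with h
    · rw [h, sub_self, abs_zero]
      exact hM
    · rw [sub_zero]
      exact hp i
  have hqn : ∀ m, e ≤ m → q.coeff m = 0 := by
    intro m hm
    rw [hq, coeff_sub, coeff_C_mul_X_pow]
    rcases Nat.eq_or_lt_of_le hm with h | h
    · rw [if_pos h.symm, h, sub_self]
    · rw [if_neg (by omega), hpn m h, sub_zero]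
  have h1 := eval_upper q e M x hqM hqn
  have h2 := geom |x| e
  have h3 : 0 ≤ ∑ i ∈ range e, |x| ^ i := by positivity
  have h4 : 2 * (M * ∑ i ∈ range e, |x| ^ i) ≤ |x| ^ e := by nlinarith
  have h5 : p.eval x = q.eval x + p.coeff e * x ^ e := by
    rw [hq]
    simp
  have h6 : |x| ^ e ≤ |p.coeff e * x ^ e| := by
    rw [abs_mul, abs_pow]
    have : 1 ≤ |p.coeff e| := Int.one_le_abs hpe
    nlinarith [pow_nonneg (abs_nonneg x) e]
  have h7 : |p.coeff e * x ^ e| ≤ |p.eval x| + |q.eval x| := by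
    have : p.coeff e * x ^ e = p.eval x - q.eval x := by rw [h5]; ring
    rw [this]
    exact abs_sub _ _
  linarith

/-- a point with `a(x) = 0` gives infinitely many -/
theorem eval_ne_zero {a b : ℤ[X]} (hf : (Z a b).Finite) {p : ℤ × ℤ} (hp : p ∈ Z a b) :
    a.eval p.1 ≠ 0 := by
  intro h
  have hb : b.eval p.1 = 0 := by
    have h1 : a.eval p.1 * p.2 + b.eval p.1 = 0 := hp
    rw [h, zero_mul, zero_add] at h1
    exact h1
  have h2 : (Set.range fun y : ℤ => (p.1, y)).Infinite :=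
    Set.infinite_range_of_injective fun y z h => (Prod.mk.inj h).2
  refine h2 (hf.subset ?_)
  rintro _ ⟨y, rfl⟩
  show a.eval p.1 * y + b.eval p.1 = 0
  rw [h, hb]
  ring

/-- if `a` divides `c b` for an integer `c`, then a point gives infinitely many -/
theorem remainder_ne_zero {a b q : ℤ[X]} {c : ℤ} (hc : c ≠ 0) (hq : C c * b = q * a)
    (hf : (Z a b).Finite) {p : ℤ × ℤ} (hp : p ∈ Z a b) : False := by
  have ha := eval_ne_zero hf hp
  have h0 : a.eval p.1 * p.2 + b.eval p.1 = 0 := hp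
  have hev : ∀ x : ℤ, c * b.eval x = q.eval x * a.eval x := by
    intro x
    have := congrArg (eval x) hq
    simpa using this
  have h1 : c ∣ q.eval p.1 := by
    refine ⟨-p.2, ?_⟩
    have h2 := hev p.1
    refine mul_right_cancel₀ ha ?_
    rw [← h2]
    linear_combination c * h0
  have h2 : ∀ s : ℤ, c ∣ q.eval (p.1 + c * s) := by
    intro s
    have h3 : (p.1 + c * s) - p.1 ∣ q.eval (p.1 + c * s) - q.eval p.1 := sub_dvd_eval_sub _ _ _
    have h4 : c ∣ q.eval (p.1 + c * s) - q.eval p.1 := by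
      refine Dvd.dvd.trans ⟨s, ?_⟩ h3
      ring
    have h5 := dvd_add h4 h1
    rwa [sub_add_cancel] at h5
  choose g hg using h2
  have h3 : (Set.range fun s : ℤ => (p.1 + c * s, -g s)).Infinite := by
    refine Set.infinite_range_of_injective fun s t h => ?_
    have h4 := (Prod.mk.inj h).1
    exact mul_left_cancel₀ hc (by linarith)
  refine h3 (hf.subset ?_)
  rintro _ ⟨s, rfl⟩
  show a.eval (p.1 + c * s) * (-g s) + b.eval (p.1 + c * s) = 0
  refine mul_left_cancel₀ hc ?_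
  have h4 := hev (p.1 + c * s)
  rw [hg s] at h4
  linear_combination h4

/-- the upper bounds -/
theorem upper (d : ℕ) (hd : 2 ≤ d) (H : ℤ) (hH : 1 ≤ H) (a b : ℤ[X])
    (ha : CoeffLe a H) (hb : CoeffLe b H) (had : a.natDegree + 1 ≤ d) (hbd : b.natDegree ≤ d)
    (hf : (Z a b).Finite) (p : ℤ × ℤ) (hp : p ∈ Z a b) :
    |p.1| ≤ (2 * H) ^ (d + 1) ∧ |p.2| ≤ 2 * (2 * H) ^ (d ^ 2) := by
  have hax := eval_ne_zero hf hp
  have h0 : a.eval p.1 * p.2 + b.eval p.1 = 0 := hp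
  have ha0 : a ≠ 0 := by
    rintro rfl
    simp at hax
  obtain ⟨e, he⟩ : ∃ e, e = a.natDegree := ⟨_, rfl⟩
  have hlc : a.coeff e ≠ 0 := by
    rw [he]
    exact leadingCoeff_ne_zero.2 ha0
  have hae : ∀ m, e < m → a.coeff m = 0 := fun m hm =>
    coeff_eq_zero_of_natDegree_lt (he ▸ hm)
  obtain ⟨n, hn⟩ : ∃ n, e + n = d + 1 := ⟨d + 1 - e, by omega⟩
  have hbe : ∀ m, e + n ≤ m → b.coeff m = 0 := fun m hm =>
    coeff_eq_zero_of_natDegree_lt (by omega)
  obtain ⟨q, r, h1, h2, h3⟩ := pseudo a e H (by omega) ha hae n b H (by omega) hb hbe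
  have hc : a.coeff e ^ n ≠ 0 := pow_ne_zero _ hlc
  have hr0 : r ≠ 0 := by
    rintro rfl
    rw [add_zero] at h1
    exact remainder_ne_zero hc h1 hf hp
  -- the degree of `a` is positive
  have he1 : 1 ≤ e := by
    by_contra hcon
    have : e = 0 := by omega
    apply hr0
    ext m
    rw [h2 m (by omega), coeff_zero]
  obtain ⟨R, hR⟩ : ∃ R, R = (2 * H) ^ n * H := ⟨_, rfl⟩
  rw [← hR] at h3
  have hRH : H ≤ R := by
    rw [hR]
    have : (1 : ℤ) ≤ (2 * H) ^ n := one_le_pow₀ (by omega)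
    nlinarith
  have hdiv : a.eval p.1 ∣ r.eval p.1 := by
    have h4 := congrArg (eval p.1) h1
    simp only [eval_mul, eval_add, eval_C] at h4
    refine ⟨-(a.coeff e ^ n * p.2 + q.eval p.1), ?_⟩
    linear_combination (a.coeff e ^ n) * h0 - h4
  -- the bound for `x`
  have hx : |p.1| ≤ 2 * R := by
    by_contra hcon
    push Not at hcon
    have h5 := eval_lower a e H p.1 ha hlc hae (by linarith)
    have h6 := eval_upper r e R p.1 h3 h2
    have h7 := geom |p.1| e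
    have h8 : 0 ≤ ∑ i ∈ range e, |p.1| ^ i := by positivity
    have h9 : 2 * (R * ∑ i ∈ range e, |p.1| ^ i) < |p.1| ^ e := by nlinarith
    have h10 : |r.eval p.1| < |a.eval p.1| := by linarith
    have h11 : r.eval p.1 = 0 := Int.eq_zero_of_abs_lt_dvd ((abs_dvd _ _).2 hdiv) h10
    have h12 := eval_lower r r.natDegree R p.1 h3 (leadingCoeff_ne_zero.2 hr0)
      (fun m hm => coeff_eq_zero_of_natDegree_lt hm) (by linarith)
    rw [h11, abs_zero, mul_zero] at h12
    have h13 : 0 < |p.1| ^ r.natDegree := by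
      have : 0 < |p.1| := by linarith
      positivity
    linarith
  have hx2 : |p.1| ≤ (2 * H) ^ (n + 1) := by
    refine hx.trans (le_of_eq ?_)
    rw [hR]
    ring
  have h2H : (1 : ℤ) ≤ 2 * H := by omega
  refine ⟨hx2.trans (pow_le_pow_right₀ h2H (by omega)), ?_⟩
  have hy : |a.eval p.1| * |p.2| = |b.eval p.1| := by
    rw [← abs_mul]
    have : a.eval p.1 * p.2 = -b.eval p.1 := by linarith
    rw [this, abs_neg]
  have hb1 := eval_upper b (d + 1) H p.1 hb fun m hm =>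
    coeff_eq_zero_of_natDegree_lt (by omega)
  rcases le_or_gt (2 * H + 1) |p.1| with hbig | hsmall
  · -- large `x`
    have h5 := eval_lower a e H p.1 ha hlc hae hbig
    have h7 := geom |p.1| (d + 1)
    have h8 : 0 ≤ ∑ i ∈ range (d + 1), |p.1| ^ i := by positivity
    have hX : 0 < |p.1| := by linarith
    -- `|b(x)| ≤ 2 H |x| ^ d`
    have h9 : |b.eval p.1| ≤ 2 * H * |p.1| ^ d := by
      have h10 : ∑ i ∈ range (d + 1), |p.1| ^ i ≤ 2 * |p.1| ^ d := by
        have h11 : |p.1| * ∑ i ∈ range (d + 1), |p.1| ^ i ≤ |p.1| * (2 * |p.1| ^ d) := by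
          have h12 : |p.1| ^ (d + 1) = |p.1| * |p.1| ^ d := by ring
          nlinarith
        exact le_of_mul_le_mul_left h11 hX
      calc |b.eval p.1| ≤ H * ∑ i ∈ range (d + 1), |p.1| ^ i := hb1
        _ ≤ H * (2 * |p.1| ^ d) := mul_le_mul_of_nonneg_left h10 (by omega)
        _ = _ := by ring
    -- `|y| ≤ 4 H |x| ^ (d - e)`
    have h13 : |p.2| ≤ 4 * H * |p.1| ^ (d - e) := by
      have h14 : |p.1| ^ d = |p.1| ^ e * |p.1| ^ (d - e) := by
        rw [← pow_add]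
        congr 1
        omega
      have h15 : |p.1| ^ e * |p.2| ≤ |p.1| ^ e * (4 * H * |p.1| ^ (d - e)) := by
        calc |p.1| ^ e * |p.2| ≤ 2 * |a.eval p.1| * |p.2| :=
              mul_le_mul_of_nonneg_right h5 (abs_nonneg _)
          _ = 2 * |b.eval p.1| := by rw [mul_assoc, hy]
          _ ≤ 2 * (2 * H * |p.1| ^ d) := by linarith
          _ = _ := by rw [h14]; ring
      exact le_of_mul_le_mul_left h15 (by positivity)
    calc |p.2| ≤ 4 * H * |p.1| ^ (d - e) := h13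
      _ ≤ 4 * H * ((2 * H) ^ (n + 1)) ^ (d - e) := by
        refine mul_le_mul_of_nonneg_left (pow_le_pow_left₀ (abs_nonneg _) hx2 _) (by omega)
      _ = 2 * (2 * H) ^ (1 + (n + 1) * (d - e)) := by
        rw [← pow_mul, pow_add, pow_one]
        ring
      _ ≤ 2 * (2 * H) ^ (d ^ 2) := by
        refine mul_le_mul_of_nonneg_left (pow_le_pow_right₀ h2H ?_) (by norm_num)
        obtain ⟨k, rfl⟩ : ∃ k, d = e + k := ⟨d - e, by omega⟩
        have hnk : n = k + 1 := by omega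
        subst hnk
        rw [Nat.add_sub_cancel_left]
        obtain ⟨e', rfl⟩ : ∃ e', e = e' + 1 := ⟨e - 1, by omega⟩
        nlinarith
  · -- small `x`
    have h5 : (1 : ℤ) ≤ |a.eval p.1| := Int.one_le_abs hax
    have h6 : |p.2| ≤ |b.eval p.1| := by
      rw [← hy]
      nlinarith [abs_nonneg p.2]
    have h7 : ∑ i ∈ range (d + 1), |p.1| ^ i ≤ (d + 1 : ℕ) * (2 * H) ^ d := by
      have h8 : ∀ i ∈ range (d + 1), |p.1| ^ i ≤ (2 * H) ^ d := by
        intro i hi
        calc |p.1| ^ i ≤ (2 * H) ^ i := pow_le_pow_left₀ (abs_nonneg _) (by linarith) _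
          _ ≤ (2 * H) ^ d := pow_le_pow_right₀ h2H (by
            have := mem_range.1 hi
            omega)
      have h9 := sum_le_card_nsmul _ _ _ h8
      rw [card_range, nsmul_eq_mul] at h9
      exact_mod_cast h9
    have h8 : H * ((d + 1 : ℕ) : ℤ) ≤ (2 * H) ^ d := by
      have h9 : d + 1 ≤ 2 ^ d := Nat.lt_two_pow_self
      have h10 : ((d + 1 : ℕ) : ℤ) ≤ 2 ^ d := by exact_mod_cast h9
      have h11 : H ≤ H ^ d := le_self_pow₀ hH (by omega)
      rw [mul_pow, mul_comm]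
      exact mul_le_mul h10 h11 (by omega) (by positivity)
    have h2Hd : 0 < (2 * H) ^ d := by positivity
    calc |p.2| ≤ |b.eval p.1| := h6
      _ ≤ H * ∑ i ∈ range (d + 1), |p.1| ^ i := hb1
      _ ≤ H * (((d + 1 : ℕ) : ℤ) * (2 * H) ^ d) := mul_le_mul_of_nonneg_left h7 (by omega)
      _ = H * ((d + 1 : ℕ) : ℤ) * (2 * H) ^ d := by ring
      _ ≤ (2 * H) ^ d * (2 * H) ^ d := mul_le_mul_of_nonneg_right h8 h2Hd.le
      _ = (2 * H) ^ (2 * d) := by ring
      _ ≤ (2 * H) ^ (d ^ 2) := pow_le_pow_right₀ h2H (by nlinarith)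
      _ ≤ 2 * (2 * H) ^ (d ^ 2) := by
        have : 0 < (2 * H) ^ (d ^ 2) := by positivity
        linarith

/-- the polynomials of the lower bound: `(x - t) y - t x ^ d` -/
noncomputable def a₀ (t : ℤ) : ℤ[X] := X - C t

/-- the polynomials of the lower bound: `(x - t) y - t x ^ d` -/
noncomputable def b₀ (d : ℕ) (t : ℤ) : ℤ[X] := -(C t * X ^ d)

theorem mem_Z₀ (d : ℕ) (t : ℤ) (p : ℤ × ℤ) : p ∈ Z (a₀ t) (b₀ d t) ↔ (p.1 - t) * p.2 = t * p.1 ^ d := by
  show (a₀ t).eval p.1 * p.2 + (b₀ d t).eval p.1 = 0 ↔ _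
  unfold a₀ b₀
  simp only [eval_sub, eval_X, eval_C, eval_neg, eval_mul, eval_pow]
  constructor
  · intro h
    linarith
  · intro h
    linarith

theorem finite₀ (d : ℕ) (t : ℤ) (ht : 1 ≤ t) : (Z (a₀ t) (b₀ d t)).Finite := by
  have ht0 : t ^ (d + 1) ≠ 0 := by positivity
  -- `x - t` divides `t ^ (d + 1)`
  have hdvd : ∀ p ∈ Z (a₀ t) (b₀ d t), p.1 - t ∣ t ^ (d + 1) := by
    intro p hp
    rw [mem_Z₀] at hp
    have h1 : p.1 - t ∣ p.1 ^ d - t ^ d := sub_dvd_pow_sub_pow _ _ _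
    have h2 : p.1 - t ∣ t * p.1 ^ d := ⟨p.2, hp.symm⟩
    have h3 : t ^ (d + 1) = t * p.1 ^ d - t * (p.1 ^ d - t ^ d) := by ring
    rw [h3]
    exact dvd_sub h2 (Dvd.dvd.mul_left h1 t)
  have hne : ∀ p ∈ Z (a₀ t) (b₀ d t), p.1 - t ≠ 0 := by
    intro p hp h
    have h1 := hdvd p hp
    rw [h, zero_dvd_iff] at h1
    exact ht0 h1
  have hfin : {x : ℤ | x - t ∣ t ^ (d + 1)}.Finite := by
    refine (Set.finite_Icc (t - t ^ (d + 1)) (t + t ^ (d + 1))).subset ?_
    intro x hx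
    have h1 : |x - t| ≤ |t ^ (d + 1)| := by
      have h2 : |x - t| ∣ |t ^ (d + 1)| := abs_dvd_abs _ _ |>.2 hx
      exact Int.le_of_dvd (abs_pos.2 ht0) h2
    rw [abs_of_pos (by positivity : 0 < t ^ (d + 1))] at h1
    have h3 := abs_le.1 h1
    exact ⟨by linarith [h3.1], by linarith [h3.2]⟩
  refine Set.Finite.of_finite_image (f := Prod.fst) (hfin.subset ?_) ?_
  · rintro _ ⟨p, hp, rfl⟩
    exact hdvd p hp
  · intro p hp q hq h
    have h1 := (mem_Z₀ d t p).1 hp
    have h2 := (mem_Z₀ d t q).1 hq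
    have h3 : p.1 = q.1 := h
    refine Prod.ext h3 ?_
    refine mul_left_cancel₀ (hne p hp) ?_
    rw [h1, h3, h2]

theorem point₀ (d : ℕ) (t : ℤ) : (t + t ^ (d + 1), (1 + t ^ d) ^ d) ∈ Z (a₀ t) (b₀ d t) := by
  rw [mem_Z₀]
  show (t + t ^ (d + 1) - t) * (1 + t ^ d) ^ d = t * (t + t ^ (d + 1)) ^ d
  have h1 : t + t ^ (d + 1) = t * (1 + t ^ d) := by ring
  rw [h1, mul_pow]
  ring

theorem coeff₀ (d : ℕ) (t : ℤ) (ht : 1 ≤ t) : CoeffLe (a₀ t) t ∧ CoeffLe (b₀ d t) t := by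
  have h0 : |t| = t := abs_of_pos (by omega)
  constructor
  · intro i
    unfold a₀
    rw [coeff_sub, coeff_X, coeff_C]
    split_ifs with h1 h2 h2
    · omega
    · simpa using ht
    · simp [h0]
    · simp
      omega
  · intro i
    unfold b₀
    rw [coeff_neg, coeff_C_mul_X_pow, abs_neg]
    split_ifs
    · exact h0.le
    · simp
      omega

theorem degree₀ (d : ℕ) (hd : 2 ≤ d) (t : ℤ) :
    (a₀ t).natDegree + 1 ≤ d ∧ (b₀ d t).natDegree ≤ d := by
  constructor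
  · unfold a₀
    rw [natDegree_X_sub_C]
    omega
  · unfold b₀
    rw [natDegree_neg]
    exact natDegree_C_mul_X_pow_le _ _

/-- **The optimal exponent of the height for the curves `a(x) y + b(x) = 0`.** Let `d ≥ 2`.
(1) Let `a, b ∈ ℤ[x]` have degrees at most `d - 1` and `d`, so that `f = a(x) y + b(x)` has total
degree at most `d`, and let all coefficients be at most `H` in absolute value, `H ≥ 1`. If `f` has
only finitely many integer zeros `(x, y)`, then `|x| ≤ (2 H) ^ (d + 1)` and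
`|y| ≤ 2 (2 H) ^ (d ^ 2)` for all of them.
(2) For every `t ≥ 1` the polynomial `(x - t) y - t x ^ d` is of this kind with `H = t`; it has only
finitely many integer zeros, one of which is `(t + t ^ (d + 1), (1 + t ^ d) ^ d)`.
(3) Hence the exponents `d + 1` and `d ^ 2` cannot be replaced by smaller ones. -/
theorem result (d : ℕ) (hd : 2 ≤ d) :
    (∀ (H : ℤ) (a b : ℤ[X]), 1 ≤ H → CoeffLe a H → CoeffLe b H → a.natDegree + 1 ≤ d →
      b.natDegree ≤ d → (Z a b).Finite → ∀ p ∈ Z a b,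
        |p.1| ≤ (2 * H) ^ (d + 1) ∧ |p.2| ≤ 2 * (2 * H) ^ (d ^ 2)) ∧
    (∀ t : ℤ, 1 ≤ t → CoeffLe (a₀ t) t ∧ CoeffLe (b₀ d t) t ∧ (a₀ t).natDegree + 1 ≤ d ∧
      (b₀ d t).natDegree ≤ d ∧ (Z (a₀ t) (b₀ d t)).Finite ∧
      (t + t ^ (d + 1), (1 + t ^ d) ^ d) ∈ Z (a₀ t) (b₀ d t)) ∧
    (∀ K E : ℝ, (∀ (H : ℤ) (a b : ℤ[X]), 1 ≤ H → CoeffLe a H → CoeffLe b H →
      a.natDegree + 1 ≤ d → b.natDegree ≤ d → (Z a b).Finite → ∀ p ∈ Z a b,
        ((|p.1| : ℤ) : ℝ) ≤ K * (H : ℝ) ^ E) → (d : ℝ) + 1 ≤ E) ∧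
    (∀ K E : ℝ, (∀ (H : ℤ) (a b : ℤ[X]), 1 ≤ H → CoeffLe a H → CoeffLe b H →
      a.natDegree + 1 ≤ d → b.natDegree ≤ d → (Z a b).Finite → ∀ p ∈ Z a b,
        ((|p.2| : ℤ) : ℝ) ≤ K * (H : ℝ) ^ E) → (d : ℝ) ^ 2 ≤ E) := by
  -- growth
  have key : ∀ (n : ℕ) (K E : ℝ), (∀ t : ℕ, 1 ≤ t → (t : ℝ) ^ n ≤ K * (t : ℝ) ^ E) →
      (n : ℝ) ≤ E := by
    intro n K E h
    by_contra hlt
    push Not at hlt
    have h1 : Filter.Tendsto (fun t : ℕ => (t : ℝ) ^ ((n : ℝ) - E)) Filter.atTop Filter.atTop :=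
      (tendsto_rpow_atTop (by linarith)).comp tendsto_natCast_atTop_atTop
    obtain ⟨t, ht1, ht2⟩ :=
      ((h1.eventually_gt_atTop K).and (Filter.eventually_ge_atTop 1)).exists
    have ht0 : (0 : ℝ) < t := by exact_mod_cast (by omega : 0 < t)
    rw [Real.rpow_sub ht0, lt_div_iff₀ (Real.rpow_pos_of_pos ht0 _), Real.rpow_natCast] at ht1
    exact absurd (h t ht2) (not_le.2 ht1)
  have fam : ∀ t : ℤ, 1 ≤ t → CoeffLe (a₀ t) t ∧ CoeffLe (b₀ d t) t ∧ (a₀ t).natDegree + 1 ≤ d ∧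
      (b₀ d t).natDegree ≤ d ∧ (Z (a₀ t) (b₀ d t)).Finite ∧
      (t + t ^ (d + 1), (1 + t ^ d) ^ d) ∈ Z (a₀ t) (b₀ d t) := fun t ht =>
    ⟨(coeff₀ d t ht).1, (coeff₀ d t ht).2, (degree₀ d hd t).1, (degree₀ d hd t).2,
      finite₀ d t ht, point₀ d t⟩
  refine ⟨fun H a b hH ha hb had hbd hf p hp => upper d hd H hH a b ha hb had hbd hf p hp, fam,
    ?_, ?_⟩
  · intro K E h
    have h1 := key (d + 1) K E ?_
    · exact_mod_cast h1
    · intro t ht
      have ht' : (1 : ℤ) ≤ (t : ℤ) := by exact_mod_cast ht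
      obtain ⟨f1, f2, f3, f4, f5, f6⟩ := fam t ht'
      have h2 := h t (a₀ t) (b₀ d t) ht' f1 f2 f3 f4 f5 _ f6
      have h3 : ((t : ℤ)) ^ (d + 1) ≤ |(t : ℤ) + (t : ℤ) ^ (d + 1)| :=
        le_trans (by linarith) (le_abs_self _)
      have h4 : (t : ℝ) ^ (d + 1) ≤ ((|(t : ℤ) + (t : ℤ) ^ (d + 1)| : ℤ) : ℝ) := by
        exact_mod_cast h3
      exact h4.trans (by simpa using h2)
  · intro K E h
    have h1 := key (d ^ 2) K E ?_
    · exact_mod_cast h1
    · intro t ht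
      have ht' : (1 : ℤ) ≤ (t : ℤ) := by exact_mod_cast ht
      obtain ⟨f1, f2, f3, f4, f5, f6⟩ := fam t ht'
      have h2 := h t (a₀ t) (b₀ d t) ht' f1 f2 f3 f4 f5 _ f6
      have h3 : ((t : ℤ)) ^ (d ^ 2) ≤ |(1 + (t : ℤ) ^ d) ^ d| := by
        refine le_trans ?_ (le_abs_self _)
        rw [sq, pow_mul]
        exact pow_le_pow_left₀ (by positivity) (by linarith) _
      have h4 : (t : ℝ) ^ (d ^ 2) ≤ ((|(1 + (t : ℤ) ^ d) ^ d| : ℤ) : ℝ) := by
        exact_mod_cast h3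
      exact h4.trans (by simpa using h2)

end Pool.Agent.Results.MP_2d259b_nt.LinearInOneVariable
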